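import Pool.Agent.H90.RG.Targets

/-! Row F_DUM of the board reg (MP_2697e3_an): stationary harmonic maps with a dummy variable. -/

namespace Pool.Agent.H10.RG

open MeasureTheory Metric Set Filter Topology Pool.Agent.H87.SN Pool.Agent.H90.RG
open scoped ContDiff RealInnerProductSpace ENNReal

theorem pf_DUM (hL : T_DML) (hW : T_DUW) (hE : T_DUE) (hS : T_DUS) : T_DUM := by
  intro n m N A u G hN hA h
  exact
    { w12 := hW n m u G h.w12
      mem := (hL n m u G).2.2 (fun x => u x ∈ N) h.mem
      harmonic := hE n m N A u G hN hA h
      stationary := hS n m G h.w12.memLp_deriv h.stationary }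

end Pool.Agent.H10.RG
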